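import Mathlib
import Pool.Agent.X198.SeqLM2
import Pool.Agent.X198.LOneZ

set_option autoImplicit false

namespace Pool.Agent.Results.MP_d16342_al.QTwoFails

open Pool.Agent.X198.SeqLM Pool.Agent.X198.LOneZ

/-- **The answer to Q2 is negative.** There is a Hausdorff abelian topological group `G` which is
sequentially complete and locally minimal, whose connected component `c(G)` has countable weight
(so that `w(c(G))` is not Ulam-measurable), but `c(G)` differs from the connected component of the
completion of `G`. -/
theorem _root_.Pool.Agent.Results.MP_d16342_al.QTwoFails.result :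
    ∃ (G : Type) (_ : AddCommGroup G) (_ : UniformSpace G) (_ : IsUniformAddGroup G)
      (_ : T2Space G), SeqComplete G ∧ LocallyMinimal G ∧
        weight (connectedComponent (0 : G)) ≤ Cardinal.aleph0 ∧
        ¬ UlamMeasurable (weight (connectedComponent (0 : G))) ∧
        ((↑) : G → UniformSpace.Completion G) '' connectedComponent (0 : G) ≠
          connectedComponent (0 : UniformSpace.Completion G) := by
  obtain ⟨b0, hb0⟩ := exists_not_double
  have h1 := secondCountable_comp (B := Pool.Agent.X198.LOneZ.B)
  have h2 : weight (connectedComponent (0 : G Pool.Agent.X198.LOneZ.B)) ≤ Cardinal.aleph0 :=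
    weight_le
  exact ⟨G Pool.Agent.X198.LOneZ.B, inferInstance, inferInstance, inferInstance, inferInstance,
    seqComplete norm_nsmul_eq, locallyMinimal norm_nsmul_eq, h2, not_ulam h2, components hb0⟩

end Pool.Agent.Results.MP_d16342_al.QTwoFails
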